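import Mathlib

/-!
# Rooted trees and potentials

For a finite tree `G` we fix a root `r` and a parent map.  If `w` and `Φ` satisfy
`w v + ∑_{c child of v} Φ c ≤ Φ v` for all `v ≠ r`, and `w r + ∑_{c child of r} Φ c ≤ C`, then
`∑ v, w v ≤ C`.
-/

namespace Pool.Agent.V11064.TreePot

open Finset SimpleGraph

/-- A rooting of a graph: a root, a parent map and a rank function. -/
structure Rooting {V : Type*} (G : SimpleGraph V) where
  r : V
  par : V → V
  rank : V → ℕ
  adj_par : ∀ v, v ≠ r → G.Adj v (par v)
  rank_par : ∀ v, v ≠ r → rank (par v) + 1 = rank v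
  adj_cases : ∀ u v, G.Adj u v → (u ≠ r ∧ par u = v) ∨ (v ≠ r ∧ par v = u)

theorem exists_rooting {V : Type*} (G : SimpleGraph V) (hG : G.IsTree) :
    Nonempty (Rooting G) := by
  classical
  obtain ⟨r⟩ := hG.1.nonempty
  have hex : ∀ v, ∃ p : G.Walk v r, p.IsPath := fun v => (hG.existsUnique_path v r).exists
  choose P hP using hex
  have huniq : ∀ {v w : V} (p q : G.Walk v w), p.IsPath → q.IsPath → p = q := by
    intro v w p q hp hq
    have := (hG.2.subsingleton_path v w).elim ⟨p, hp⟩ ⟨q, hq⟩
    exact congrArg Subtype.val this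
  have hnil : ∀ v, v ≠ r → ¬ (P v).Nil := fun v hv => Walk.not_nil_of_ne hv
  refine ⟨⟨r, fun v => (P v).snd, fun v => (P v).length, ?_, ?_, ?_⟩⟩
  · intro v hv
    exact (P v).adj_snd (hnil v hv)
  · intro v hv
    have h1 : (P v).tail.IsPath := (hP v).tail
    have h2 : (P v).tail = P (P v).snd := huniq _ _ h1 (hP _)
    have h3 := Walk.length_tail_add_one (hnil v hv)
    rw [h2] at h3
    exact h3
  · intro u v h
    by_cases hu : u ∈ (P v).support
    · right
      have hvr : v ≠ r := by
        intro hvr
        subst hvr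
        have : P v = Walk.nil := huniq _ _ (hP v) Walk.IsPath.nil
        rw [this] at hu
        simp at hu
        exact h.ne hu
      refine ⟨hvr, ?_⟩
      have h1 : ((P v).takeUntil u hu) = Walk.cons h.symm Walk.nil := by
        apply huniq
        · exact (hP v).takeUntil hu
        · simp [Walk.cons_isPath_iff, h.ne']
      have h2 := Walk.take_spec (P v) hu
      rw [h1] at h2
      have h3 : (P v).snd = (Walk.cons h.symm ((P v).dropUntil u hu)).snd := by
        conv_lhs => rw [← h2]
        rfl
      rw [h3]
      simp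
    · left
      have hur : u ≠ r := by
        intro hur
        apply hu
        rw [hur]
        exact Walk.end_mem_support _
      refine ⟨hur, ?_⟩
      have h1 : P u = Walk.cons h (P v) := by
        apply huniq _ _ (hP u)
        rw [Walk.cons_isPath_iff]
        exact ⟨hP v, hu⟩
      rw [h1]
      simp

variable {V : Type*} [Fintype V] [DecidableEq V] {G : SimpleGraph V}

/-- The children of a vertex. -/
def Rooting.children (R : Rooting G) (v : V) : Finset V :=
  univ.filter (fun c => c ≠ R.r ∧ R.par c = v)

theorem Rooting.mem_children (R : Rooting G) (v c : V) :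
    c ∈ R.children v ↔ c ≠ R.r ∧ R.par c = v := by
  simp [Rooting.children]

theorem Rooting.child_adj (R : Rooting G) {v c : V} (h : c ∈ R.children v) : G.Adj v c := by
  rw [R.mem_children] at h
  have := R.adj_par c h.1
  rw [h.2] at this
  exact this.symm

theorem Rooting.par_not_child (R : Rooting G) {v : V} (hv : v ≠ R.r) :
    R.par v ∉ R.children v := by
  intro h
  rw [R.mem_children] at h
  have h1 := R.rank_par v hv
  have h2 := R.rank_par (R.par v) h.1
  rw [h.2] at h2
  omega

theorem Rooting.neighbors (R : Rooting G) [DecidableRel G.Adj] {v : V} (hv : v ≠ R.r) :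
    G.neighborFinset v = insert (R.par v) (R.children v) := by
  ext u
  rw [mem_neighborFinset, mem_insert]
  constructor
  · intro h
    rcases R.adj_cases v u h with h1 | h1
    · left; exact h1.2.symm
    · right; rw [R.mem_children]; exact h1
  · rintro (h | h)
    · rw [h]; exact R.adj_par v hv
    · exact R.child_adj h

theorem Rooting.neighbors_root (R : Rooting G) [DecidableRel G.Adj] :
    G.neighborFinset R.r = R.children R.r := by
  ext u
  rw [mem_neighborFinset]
  constructor
  · intro h
    rcases R.adj_cases _ u h with h1 | h1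
    · exact absurd rfl h1.1
    · rw [R.mem_children]; exact h1
  · intro h
    exact R.child_adj h

theorem Rooting.sum_neighbors (R : Rooting G) [DecidableRel G.Adj] {v : V} (hv : v ≠ R.r)
    (f : V → ℤ) :
    ∑ u ∈ G.neighborFinset v, f u = f (R.par v) + ∑ c ∈ R.children v, f c := by
  rw [R.neighbors hv, sum_insert (R.par_not_child hv)]

theorem Rooting.sum_children (R : Rooting G) (Φ : V → ℤ) :
    ∑ v, ∑ c ∈ R.children v, Φ c = ∑ c ∈ univ.erase R.r, Φ c := by
  have h1 : ∀ v, ∑ c ∈ R.children v, Φ c
      = ∑ c ∈ (univ.erase R.r).filter (fun c => R.par c = v), Φ c := by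
    intro v
    congr 1
    ext c
    simp [Rooting.children]
  simp_rw [h1]
  exact sum_fiberwise _ _ _

/-- Potentials on a rooted tree. -/
theorem Rooting.sum_le (R : Rooting G) (w Φ : V → ℤ) (C : ℤ)
    (h : ∀ v, v ≠ R.r → w v + ∑ c ∈ R.children v, Φ c ≤ Φ v)
    (hr : w R.r + ∑ c ∈ R.children R.r, Φ c ≤ C) : ∑ v, w v ≤ C := by
  have h1 : ∑ v, (w v + ∑ c ∈ R.children v, Φ c) ≤ C + ∑ v ∈ univ.erase R.r, Φ v := by
    rw [← add_sum_erase univ _ (mem_univ R.r)]
    apply add_le_add hr
    apply sum_le_sum
    intro v hv
    exact h v (ne_of_mem_erase hv)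
  rw [sum_add_distrib, R.sum_children] at h1
  linarith

end Pool.Agent.V11064.TreePot
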